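import Pool.Agent.H6.RCQ.Stmts2

/-! Project RCQ, module A3P -/

set_option autoImplicit false

namespace Pool.Agent.H76.RCQ.A3P

open Pool.Agent.H39.RC Pool.Agent.H6.RCQ
open Classical

variable {V : Type}

theorem ir_le (R : Finset V) (x : V) : ir R x ≤ 1 := by
  unfold ir; split_ifs <;> simp

theorem side {G : SimpleGraph V} {p : ℕ} {lab : V → V → Fin p} {R : Finset V} {x y a2 : V}
    (h5 : A5Stmt) (hCA : CA p G lab R x y) (hp : 3 ≤ p) (hA : (CN G R x y).card = 5)
    (ha2 : a2 ∈ CN G R x y) (hE : ∀ e ∈ PB G R y x, G.Adj e a2) :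
    (PB G R y x).card ≤ 5 ∧ (PB G R x y).card + 5 ≤ 6 * p := by
  have ha := (Finset.mem_filter.mp ha2).2
  constructor
  · rw [← hA]
    refine le_trans (Finset.card_le_card ?_) (hCA.max y a2 ?_)
    · intro e he
      have h := Finset.mem_filter.mp he
      exact Finset.mem_filter.mpr ⟨h.1, h.2.1, (hE e he).symm⟩
    · intro h
      rw [← h] at ha
      exact G.loopless.irrefl _ ha.2
  · have hD := h5 V G p lab R x y hCA hA
    rw [← hA]
    have hdisj : Disjoint (PB G R x y) (CN G R x y) := by
      rw [Finset.disjoint_left]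
      intro v h1 h2
      exact (Finset.mem_filter.mp h1).2.2.1 (Finset.mem_filter.mp h2).2.2
    rw [← Finset.card_union_of_disjoint hdisj]
    refine le_trans (Finset.card_le_card ?_) hD
    intro v hv
    rcases Finset.mem_union.mp hv with h | h
    · exact Finset.mem_filter.mpr ⟨(Finset.mem_filter.mp h).1, (Finset.mem_filter.mp h).2.1⟩
    · exact Finset.mem_filter.mpr ⟨(Finset.mem_filter.mp h).1, (Finset.mem_filter.mp h).2.1⟩

theorem cls {p : ℕ} (hp : 0 < p) (B : Finset V) (f : V → Fin p) :
    ∃ k : Fin p, B.card ≤ (B.image f).card * (B.filter (fun b => f b = k)).card := by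
  obtain ⟨k, -, hk⟩ := Finset.exists_max_image (Finset.univ : Finset (Fin p))
    (fun k => (B.filter (fun b => f b = k)).card) ⟨⟨0, hp⟩, Finset.mem_univ _⟩
  refine ⟨k, ?_⟩
  rw [mul_comm]
  exact Finset.card_le_mul_card_image B _ (fun a _ => hk a (Finset.mem_univ _))

theorem img {p : ℕ} (B : Finset V) (f : V → Fin p) (c : Fin p) (h : ∀ b ∈ B, c ≠ f b) :
    (B.image f).card ≤ p - 1 := by
  have h1 : B.image f ⊆ (Finset.univ : Finset (Fin p)).erase c := by
    intro k hk
    obtain ⟨b, hb, rfl⟩ := Finset.mem_image.mp hk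
    exact Finset.mem_erase.mpr ⟨fun e => h b hb e.symm, Finset.mem_univ _⟩
  have h2 := Finset.card_le_card h1
  rwa [Finset.card_erase_of_mem (Finset.mem_univ _), Finset.card_univ, Fintype.card_fin] at h2

theorem a3p (hS : ASStmt) (hC : ACStmt) (hB : ABStmt) (hT : ATStmt) (hK : AKEYStmt)
    (hF : AFStmt) (hFF : AFFStmt) (h5 : A5Stmt) (h0 : AN0Stmt) : A3PStmt := by
  intro V G p lab R x y hCA hp
  have hcard := hCA.card
  have hpart := (hC V G p lab R x y hCA).2
  have i1 := ir_le R x
  have i2 := ir_le R y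
  have hBB := hB V G p lab R x y hCA
  have hTy := hT V G p lab R x y hCA
  have hNN5 : (NN G R x y).card ≤ 5 := by
    rcases hTy with h | h
    · have := h.2.1; omega
    · exact h.1
  have hNsub : NN G R x y ⊆ CN G R x y := Finset.filter_subset _ _
  have hAsum : (FF G R x y).card + (NN G R x y).card = (CN G R x y).card :=
    Finset.card_sdiff_add_card_eq_card hNsub
  rcases (FF G R x y).eq_empty_or_nonempty with hE | ⟨a, ha⟩
  · have hA5 := hCA.five
    rw [hE, Finset.card_empty, zero_add] at hAsum
    have hA : (CN G R x y).card = 5 := by omega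
    rcases hTy with h | ⟨-, a1, a2, a3, hPP, -, -, -, -, -, -, hor⟩
    · have := h.2.1; omega
    · have ha2 : a2 ∈ CN G R x y := by
        have : a2 ∈ PP G R x y := by rw [hPP]; simp
        exact (Finset.mem_filter.mp this).1
      rcases hor with hor | hor
      · obtain ⟨s1, s2, -⟩ := hS V G p lab R x y hCA
        have := side h5 s1 hp (by rw [s2]; exact hA) (by rw [s2]; exact ha2) hor
        nlinarith [this.1, this.2]
      · have := side h5 hCA hp hA ha2 hor
        nlinarith [this.1, this.2]
  · have hf := hF V G p lab R x y hCA a ha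
    obtain ⟨k, hk⟩ := cls (by omega) (PB G R x y) (fun b => lab x b)
    obtain ⟨m, hm⟩ := cls (by omega) (PB G R y x) (fun b => lab y b)
    have hkey := (hK V G p lab R x y hCA k m).1
    have hff := hFF V G p lab R x y hCA
    have hβ := img (PB G R x y) (fun b => lab x b) (lab x a) hf.1
    have hγ := img (PB G R y x) (fun b => lab y b) (lab y a) hf.2
    have hβ1 : 1 ≤ ((PB G R x y).image (fun b => lab x b)).card := by
      rw [Nat.succ_le_iff, Finset.card_pos, Finset.image_nonempty, ← Finset.card_pos]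
      omega
    have hγ1 : 1 ≤ ((PB G R y x).image (fun b => lab y b)).card := by
      rw [Nat.succ_le_iff, Finset.card_pos, Finset.image_nonempty, ← Finset.card_pos]
      omega
    have := h0 p _ _ _ _ _ _ _ hp hβ1 hγ1 hβ hγ hk hm hkey hBB.1 hBB.2 hff
    omega

end Pool.Agent.H76.RCQ.A3P
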