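import Pool.Agent.H6.RCQ.Stmts4

/-! Project RCQ, module C3 -/

set_option autoImplicit false

namespace Pool.Agent.H76.RCQ.C3

open Pool.Agent.H39.RC Pool.Agent.H6.RCQ
open Classical

theorem c3 (h1 : CV1Stmt) (h2 : CV2Stmt) (h3 : CV3Stmt) (h4 : CV4Stmt) : C3Stmt := by
  intro V G p lab R hfin hCB hp hdeg
  have hN := hCB.card
  have hpg := hCB.cfg.pg
  have hp2 : 3 * 3 ^ 2 + 3 + 2 ≤ R.card := by rw [hN]; nlinarith
  have e1 := h1 V G R 6 hfin hpg (by omega) (by norm_num) (fun w _ => hdeg w)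
  have e4 := h4 V G p lab R hCB.cfg
  set E := pr R (fun a b => G.Adj a b) with hE
  set Q := pr R (fun a b => ¬ G.Adj a b ∧ ∃ w, w ∉ R ∧ G.Adj w a ∧ G.Adj w b) with hQ
  set W := pr R (fun a b => ∃ w, w ∈ R ∧ G.Adj w a ∧ G.Adj w b ∧ lab w a ≠ lab w b) with hW
  set N := R.card with hNd
  obtain ⟨M, hM⟩ : ∃ M, N = M + 1 := ⟨N - 1, by omega⟩
  rw [hM, Nat.add_sub_cancel] at e4
  rcases eq_or_lt_of_le hp with h | h
  · subst h
    have e2 := h2 V G 3 lab R 4 (fun w _ => (h3 V 3 (lab w) (D G R w)).2.1 rfl (hdeg w))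
    have e2' : W ≤ 4 * E := e2
    have hN32 : M = 31 := by rw [hN] at hM; omega
    subst hN32
    omega
  · have e2 := h2 V G p lab R 5 (fun w _ => (h3 V p (lab w) (D G R w)).2.2 (hdeg w))
    have e2' : W ≤ 5 * E := e2
    have hM2 : 53 ≤ M := by
      have : 54 ≤ N := by rw [hN]; nlinarith
      omega
    have e5 : (M + 1) * M ≤ 36 * M := by omega
    nlinarith

end Pool.Agent.H76.RCQ.C3
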