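import Pool.Agent.H6.RCQ.Stmts4

/-! Project RCQ, module CR -/

set_option autoImplicit false

namespace Pool.Agent.H76.RCQ.CR

open Pool.Agent.H39.RC Pool.Agent.H6.RCQ
open Classical

variable {V : Type} {G : SimpleGraph V}

theorem cr_rot {x a b c d : V} (h : Cr G x a b c d) : Cr G x b c d a := by
  intro P Q hP hQ hxP hxQ hb hd hc ha
  have := h Q P hQ hP hxQ hxP ha hc hb hd
  rwa [Set.inter_comm] at this

theorem cr_rev {x a b c d : V} (h : Cr G x a b c d) : Cr G x d c b a := by
  intro P Q hP hQ hxP hxQ hd hb hc ha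
  have := h Q P hQ hP hxQ hxP ha hc hb hd
  rwa [Set.inter_comm] at this

theorem cr : CRStmt := by
  intro V G x Dx n t h
  have hmod : ∀ i, i < n → i + 1 < n → (i + 1) % n = i + 1 := fun i _ h2 => Nat.mod_eq_of_lt h2
  refine ⟨⟨?_, ?_, ?_, ?_⟩, ⟨?_, ?_, ?_, ?_⟩⟩
  · intro i hi j hj hij
    have hn : 0 < n := by omega
    have e := h.inj _ (Nat.mod_lt (i + 1) hn) _ (Nat.mod_lt (j + 1) hn) hij
    rcases Nat.lt_or_ge (i + 1) n with h1 | h1
    · rcases Nat.lt_or_ge (j + 1) n with h2 | h2
      · rw [Nat.mod_eq_of_lt h1, Nat.mod_eq_of_lt h2] at e; omega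
      · have hj' : j + 1 = n := by omega
        rw [Nat.mod_eq_of_lt h1, hj', Nat.mod_self] at e; omega
    · have hi' : i + 1 = n := by omega
      rcases Nat.lt_or_ge (j + 1) n with h2 | h2
      · rw [hi', Nat.mod_self, Nat.mod_eq_of_lt h2] at e; omega
      · omega
  · intro i hi
    exact h.mem _ (Nat.mod_lt _ (by omega))
  · intro d hd
    obtain ⟨i, hi, hid⟩ := h.all d hd
    rcases Nat.eq_zero_or_pos i with h0 | h0
    · refine ⟨n - 1, by omega, ?_⟩
      have : (n - 1 + 1) % n = 0 := by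
        rw [Nat.sub_add_cancel (by omega)]; exact Nat.mod_self n
      simp only [this]; rw [← hid, h0]
    · refine ⟨i - 1, by omega, ?_⟩
      have : (i - 1 + 1) % n = i := by
        rw [Nat.sub_add_cancel h0]; exact Nat.mod_eq_of_lt hi
      simp only [this]; exact hid
  · intro i j k l hij hjk hkl hl
    have e1 : (i + 1) % n = i + 1 := Nat.mod_eq_of_lt (by omega)
    have e2 : (j + 1) % n = j + 1 := Nat.mod_eq_of_lt (by omega)
    have e3 : (k + 1) % n = k + 1 := Nat.mod_eq_of_lt (by omega)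
    simp only [e1, e2, e3]
    rcases Nat.lt_or_ge (l + 1) n with h1 | h1
    · rw [Nat.mod_eq_of_lt h1]
      exact h.cr _ _ _ _ (by omega) (by omega) (by omega) h1
    · have hl' : l + 1 = n := by omega
      rw [hl', Nat.mod_self]
      exact cr_rot (h.cr 0 (i + 1) (j + 1) (k + 1) (by omega) (by omega) (by omega) (by omega))
  · intro i hi j hj hij
    have e := h.inj _ (by omega) _ (by omega) hij
    omega
  · intro i hi
    exact h.mem _ (by omega)
  · intro d hd
    obtain ⟨i, hi, hid⟩ := h.all d hd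
    refine ⟨n - 1 - i, by omega, ?_⟩
    have : n - 1 - (n - 1 - i) = i := by omega
    simp only [this]; exact hid
  · intro i j k l hij hjk hkl hl
    exact cr_rev (h.cr (n - 1 - l) (n - 1 - k) (n - 1 - j) (n - 1 - i) (by omega) (by omega)
      (by omega) (by omega))

end Pool.Agent.H76.RCQ.CR
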